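import Pool.Agent.BKH.Deg
import Pool.Agent.BKH.Slack
import Pool.Agent.BKH.Strong
import Pool.Agent.BKH.Value

/-!
# Tournaments with `α_k(T) < β_k(T)` for every `k ≥ 7` and every order `n ≥ 5 k + 5`
-/

set_option autoImplicit false

namespace Pool.Agent.Results.MP_067e91_lc.BetaExceedsAlphaAllK

open Pool.Agent.BetaK Pool.Agent.BKH

/-- For every `k ≥ 7` and every `n ≥ 5 k + 5` there is a `k`-arc-strong tournament `T` on `n`
vertices with `α_k(T) = k n + (k + 1) (k - 4) / 2` and `α_k(T) < β_k(T)`. -/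
theorem result : ∀ k n : ℕ, 7 ≤ k → 5 * k + 5 ≤ n → ∃ T : Finset (Fin n × Fin n),
    IsTournament T ∧ ArcStrong k T ∧ 2 * alpha k T = 2 * k * n + (k + 1) * (k - 4) ∧
      alpha k T < beta k T := by
  intro k n hk hn
  obtain ⟨m, rfl⟩ : ∃ m, n = 5 * k + m + 5 := ⟨n - (5 * k + 5), by omega⟩
  have hA : ∀ v ∈ sA k m, ((tD k m).filter fun a => a.1 = v).card ≤ k := by
    intro v hv
    rw [mem_sA] at hv
    rw [out_card]
    exact (outA hk hv.1 hv.2 v.2).le
  have hB : ∀ v ∈ sB k m, ((tD k m).filter fun a => a.2 = v).card ≤ k := by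
    intro v hv
    rw [mem_sB] at hv
    rw [in_card]
    exact (inB hk hv.1 hv.2).le
  refine ⟨tT k m, tournament hk, strong hk, ?_,
    alpha_lt_beta hk (minDeg_tD hk) hA hB (strong hk)⟩
  rw [alpha_eq hk (minDeg_tD hk) hA hB]
  exact card_tD hk

end Pool.Agent.Results.MP_067e91_lc.BetaExceedsAlphaAllK
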